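import Mathlib
import Pool.Agent.Helper498.NCR.Final

/-!
# The case `k = 2` when one of the three transformations has countably many ergodic components

Multiple recurrence for `A ∩ T^{-m} A ∩ S^{-n} A ∩ R^{-(m+n)} A` for three measure preserving transformations `T`, `S`, `R`
of a probability space which need not be invertible and need not commute, if at least one of them (any one of the
three) is ergodic or, more generally, has at most countably many ergodic components. Nothing is assumed about
the other two.

The proof uses the general machinery for two-parameter averages of three non-commuting transformations of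
`Pool.Agent.Helper498.NCR` (part of the starting files), which is applied there to the forms `m`, `m+n`, `m+2n`; here it is
applied to the forms `m`, `n`, `m+n`. The function `1_A` is replaced by its projection to the eigenfunctions of
the transformation with countably many components, by a van der Corput argument with two shifts of `(m,n)` which keep
one of the forms fixed, and then the other two transformations become separable.
-/

set_option autoImplicit false
open MeasureTheory

namespace Pool.Agent.Results.MP_ae7bf1_an.OneErgodicSquare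

universe u

/-- `T` has at most countably many ergodic components: the space is covered, up to a null set,
by countably many measurable sets `B i` such that `T` is (measure preserving and) ergodic for
the restriction of `μ` to `B i`.  If `T` is ergodic one may take `B i = Ω` for all `i`. -/
def CountablyManyErgodicComponents {Ω : Type u} [MeasurableSpace Ω] (μ : Measure Ω)
    (T : Ω → Ω) : Prop :=
  ∃ B : ℕ → Set Ω, (∀ i, MeasurableSet (B i)) ∧ (∀ i, Ergodic T (μ.restrict (B i))) ∧
    μ (⋃ i, B i)ᶜ = 0

/-- Sanity check: an ergodic transformation qualifies. -/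
theorem of_ergodic {Ω : Type u} [MeasurableSpace Ω] (μ : Measure Ω) (T : Ω → Ω)
    (h : Ergodic T μ) : CountablyManyErgodicComponents μ T :=
  ⟨fun _ => Set.univ, fun _ => MeasurableSet.univ, fun _ => by rwa [Measure.restrict_univ],
    by rw [Set.iUnion_const, Set.compl_univ, measure_empty]⟩

open Pool.Agent.Helper498.NCR Filter

section forms

private lemma cf_m : CharForm (fun m _ => m) := fun l hl =>
  ⟨l, 1, hl, by simp, fun m n => by simp⟩

private lemma cf_n : CharForm (fun _ n => n) := fun l hl =>
  ⟨1, l, by simp, hl, fun m n => by simp⟩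

private lemma cf_mn : CharForm (fun m n => m + n) := fun l hl =>
  ⟨l, l, hl, hl, fun m n => by rw [pow_add]⟩

private lemma ne_zero_of_norm {a : ℂ} (h : ‖a‖ = 1) : a ≠ 0 := fun h0 => by simp [h0] at h

/-- `n`, `m+n` -/
private lemma abs1 (α β : ℂ) (hα : ‖α‖ = 1) (hβ : ‖β‖ = 1) : ∃ A B : ℂ, ‖A‖ = 1 ∧ ‖B‖ = 1 ∧
    ∀ m n : ℕ, α ^ m * β ^ n = A ^ n * B ^ (m + n) := by
  have h1 := ne_zero_of_norm hα
  refine ⟨β * α⁻¹, α, by simp [hα, hβ], hα, fun m n => ?_⟩
  have e1 : (β * α⁻¹) * α = β := by field_simp
  calc α ^ m * β ^ n = α ^ m * ((β * α⁻¹) * α) ^ n := by rw [e1]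
    _ = _ := by ring

/-- `m`, `m+n` -/
private lemma abs2 (α β : ℂ) (hα : ‖α‖ = 1) (hβ : ‖β‖ = 1) : ∃ A B : ℂ, ‖A‖ = 1 ∧ ‖B‖ = 1 ∧
    ∀ m n : ℕ, α ^ m * β ^ n = A ^ m * B ^ (m + n) := by
  have h1 := ne_zero_of_norm hβ
  refine ⟨α * β⁻¹, β, by simp [hα, hβ], hβ, fun m n => ?_⟩
  have e1 : (α * β⁻¹) * β = α := by field_simp
  calc α ^ m * β ^ n = ((α * β⁻¹) * β) ^ m * β ^ n := by rw [e1]
    _ = _ := by ring

/-- `m`, `n` -/
private lemma abs3 (α β : ℂ) (hα : ‖α‖ = 1) (hβ : ‖β‖ = 1) : ∃ A B : ℂ, ‖A‖ = 1 ∧ ‖B‖ = 1 ∧
    ∀ m n : ℕ, α ^ m * β ^ n = A ^ m * B ^ n := ⟨α, β, hα, hβ, fun _ _ => rfl⟩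

end forms

/-- **Recurrence along parallelograms for three non-commuting transformations when at least one of them has
countably many ergodic components** (in particular, when at least one of them is ergodic). -/
theorem result :
    ∀ (Ω : Type u) [MeasurableSpace Ω] (μ : Measure Ω) [IsProbabilityMeasure μ]
      (T S R : Ω → Ω),
      MeasurePreserving T μ μ → MeasurePreserving S μ μ → MeasurePreserving R μ μ →
      (CountablyManyErgodicComponents μ T ∨ CountablyManyErgodicComponents μ S ∨
        CountablyManyErgodicComponents μ R) →
      ∀ A : Set Ω, MeasurableSet A → 0 < μ A →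
        ∃ m n : ℕ, 1 ≤ m ∧ 1 ≤ n ∧
          0 < μ (A ∩ T^[m] ⁻¹' A ∩ S^[n] ⁻¹' A ∩ R^[m + n] ⁻¹' A) := by
  intro Ω _ μ _ T S R hT hS hR hcomp A hA hμA'
  have hμA : μ A ≠ 0 := hμA'.ne'
  rcases hcomp with ⟨B, hBm, hBe, hBc⟩ | ⟨B, hBm, hBe, hBc⟩ | ⟨B, hBm, hBe, hBc⟩
  · obtain ⟨m, n, hm, hn, h⟩ := main_abs hT hS hR (fun m _ => m) (fun _ n => n) (fun m n => m + n)
      (fun g hg hg1 ho => control_abs hT hg hg1 1
        (ctrl_of_components hT B hBm hBe hBc hg hg1 ho 1 le_rfl (by norm_num))
        (fun m _ => m) (fun _ n => n) (fun m n => m + n)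
        (fun H => ⟨fun h => h, fun h => H - h, fun h => H - h, 0, H, H, by intros; (try simp only); (try omega),
          by intros; (try simp only); (try omega), by intros; (try simp only); (try omega),
          by intros; (try simp only); (try omega)⟩)
        (fun J => ⟨fun j => j, fun _ => 0, 0, 0, J, by intros; (try simp only); (try omega),
          by intros; (try simp only); (try omega), by intros; (try simp only); (try omega)⟩))
      abs1 cf_m cf_n cf_mn
      1 le_rfl (by norm_num)
      (fun J => ⟨fun j => J - j, fun j => j, 0, J, J, by intros; (try simp only); (try omega),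
        by intros; (try simp only); (try omega), by intros; (try simp only); (try omega)⟩)
      1 le_rfl (by norm_num)
      (fun J => ⟨fun j => j, fun _ => 0, 0, 0, J, by intros; (try simp only); (try omega),
        by intros; (try simp only); (try omega), by intros; (try simp only); (try omega)⟩) hA hμA
    exact ⟨m, n, hm, hn, pos_iff_ne_zero.2 h⟩
  · obtain ⟨m, n, hm, hn, h⟩ := main_abs hS hT hR (fun _ n => n) (fun m _ => m) (fun m n => m + n)
      (fun g hg hg1 ho => control_abs hS hg hg1 1
        (ctrl_of_components hS B hBm hBe hBc hg hg1 ho 1 le_rfl (by norm_num))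
        (fun _ n => n) (fun m _ => m) (fun m n => m + n)
        (fun H => ⟨fun h => H - h, fun h => h, fun h => H - h, 0, H, H, by intros; (try simp only); (try omega),
          by intros; (try simp only); (try omega), by intros; (try simp only); (try omega),
          by intros; (try simp only); (try omega)⟩)
        (fun J => ⟨fun _ => 0, fun j => j, 0, 0, J, by intros; (try simp only); (try omega),
          by intros; (try simp only); (try omega), by intros; (try simp only); (try omega)⟩))
      abs2 cf_n cf_m cf_mn
      1 le_rfl (by norm_num)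
      (fun J => ⟨fun j => j, fun j => J - j, 0, J, J, by intros; (try simp only); (try omega),
        by intros; (try simp only); (try omega), by intros; (try simp only); (try omega)⟩)
      1 le_rfl (by norm_num)
      (fun J => ⟨fun _ => 0, fun j => j, 0, 0, J, by intros; (try simp only); (try omega),
        by intros; (try simp only); (try omega), by intros; (try simp only); (try omega)⟩) hA hμA
    refine ⟨m, n, hm, hn, pos_iff_ne_zero.2 fun h0 => h ?_⟩
    refine le_antisymm (le_trans (measure_mono ?_) h0.le) bot_le
    rintro x ⟨⟨⟨h1, h2⟩, h3⟩, h4⟩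
    exact ⟨⟨⟨h1, h3⟩, h2⟩, h4⟩
  · obtain ⟨m, n, hm, hn, h⟩ := main_abs hR hT hS (fun m n => m + n) (fun m _ => m) (fun _ n => n)
      (fun g hg hg1 ho => control_abs hR hg hg1 1
        (ctrl_of_components hR B hBm hBe hBc hg hg1 ho 1 le_rfl (by norm_num))
        (fun m n => m + n) (fun m _ => m) (fun _ n => n)
        (fun H => ⟨fun h => h, fun _ => 0, fun h => h, 0, 0, H, by intros; (try simp only); (try omega),
          by intros; (try simp only); (try omega), by intros; (try simp only); (try omega),
          by intros; (try simp only); (try omega)⟩)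
        (fun J => ⟨fun _ => 0, fun j => j, 0, 0, J, by intros; (try simp only); (try omega),
          by intros; (try simp only); (try omega), by intros; (try simp only); (try omega)⟩))
      abs3 cf_mn cf_m cf_n
      1 le_rfl (by norm_num)
      (fun J => ⟨fun j => j, fun _ => 0, 0, 0, J, by intros; (try simp only); (try omega),
        by intros; (try simp only); (try omega), by intros; (try simp only); (try omega)⟩)
      1 le_rfl (by norm_num)
      (fun J => ⟨fun _ => 0, fun j => j, 0, 0, J, by intros; (try simp only); (try omega),
        by intros; (try simp only); (try omega), by intros; (try simp only); (try omega)⟩) hA hμA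
    refine ⟨m, n, hm, hn, pos_iff_ne_zero.2 fun h0 => h ?_⟩
    refine le_antisymm (le_trans (measure_mono ?_) h0.le) bot_le
    rintro x ⟨⟨⟨h1, h2⟩, h3⟩, h4⟩
    exact ⟨⟨⟨h1, h3⟩, h4⟩, h2⟩

end Pool.Agent.Results.MP_ae7bf1_an.OneErgodicSquare
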